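import Pool.Agent.Helper15.T4.Stmts

set_option autoImplicit false

/-!
MP_e0a484_co, module EXTM: perfect matchings that contain a partial matching.
-/

open Finset

namespace Pool.Agent.Helper84.T4

open Pool.Agent.Helper15.T4

theorem mem_PM {H : Type} [Fintype H] (s : Finset H) (M : Finset (Sym2 H)) :
    M ∈ PM s ↔ IsPM s M := by
  classical
  simp [PM]

theorem mem_cov {H : Type} [Fintype H] (F : Finset (Sym2 H)) (h : H) :
    h ∈ cov F ↔ ∃ e ∈ F, h ∈ e := by
  classical
  simp [cov]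

theorem sym2_exists_mem {H : Type} (e : Sym2 H) : ∃ h, h ∈ e := by
  induction e using Sym2.ind with
  | _ x y => exact ⟨x, Sym2.mem_mk_left x y⟩

theorem EXTM : ST_EXTM := by
  intro H _ _ F φ hF
  classical
  have hF' : IsPM (cov F) F := hF
  rw [Finset.mul_sum]
  refine Finset.sum_bij' (fun M _ => M \ F) (fun M' _ => F ∪ M') ?_ ?_ ?_ ?_ ?_
  · intro M hM
    rw [Finset.mem_filter, mem_PM] at hM
    obtain ⟨⟨h1, h2, h3⟩, hFM⟩ := hM
    rw [mem_PM]
    refine ⟨?_, ?_, ?_⟩
    · intro e he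
      exact h1 e (Finset.mem_sdiff.1 he).1
    · intro e he h hh
      rw [Finset.mem_compl, mem_cov]
      rintro ⟨e', he', hh'⟩
      obtain ⟨heM, heF⟩ := Finset.mem_sdiff.1 he
      have := (h3 h (Finset.mem_univ h)).unique ⟨heM, hh⟩ ⟨hFM he', hh'⟩
      exact heF (this ▸ he')
    · intro h hh
      rw [Finset.mem_compl, mem_cov] at hh
      obtain ⟨e, ⟨heM, hhe⟩, huniq⟩ := h3 h (Finset.mem_univ h)
      refine ⟨e, ⟨Finset.mem_sdiff.2 ⟨heM, fun heF => hh ⟨e, heF, hhe⟩⟩, hhe⟩, ?_⟩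
      rintro e' ⟨he', hhe'⟩
      exact huniq e' ⟨(Finset.mem_sdiff.1 he').1, hhe'⟩
  · intro M' hM'
    rw [mem_PM] at hM'
    obtain ⟨h1, h2, h3⟩ := hM'
    rw [Finset.mem_filter, mem_PM]
    refine ⟨⟨?_, ?_, ?_⟩, Finset.subset_union_left⟩
    · intro e he
      rcases Finset.mem_union.1 he with h | h
      · exact hF'.1 e h
      · exact h1 e h
    · intro e _ h _
      exact Finset.mem_univ h
    · intro h _
      by_cases hc : h ∈ cov F
      · obtain ⟨e, ⟨heF, hhe⟩, huniq⟩ := hF'.2.2 h hc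
        refine ⟨e, ⟨Finset.mem_union_left _ heF, hhe⟩, ?_⟩
        rintro e' ⟨he', hhe'⟩
        rcases Finset.mem_union.1 he' with h' | h'
        · exact huniq e' ⟨h', hhe'⟩
        · exact absurd hc (Finset.mem_compl.1 (h2 e' h' h hhe'))
      · obtain ⟨e, ⟨heF, hhe⟩, huniq⟩ := h3 h (Finset.mem_compl.2 hc)
        refine ⟨e, ⟨Finset.mem_union_right _ heF, hhe⟩, ?_⟩
        rintro e' ⟨he', hhe'⟩
        rcases Finset.mem_union.1 he' with h' | h'
        · exact absurd ((mem_cov F h).2 ⟨e', h', hhe'⟩) hc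
        · exact huniq e' ⟨h', hhe'⟩
  · intro M hM
    rw [Finset.mem_filter] at hM
    exact Finset.union_sdiff_of_subset hM.2
  · intro M' hM'
    rw [mem_PM] at hM'
    have hd : Disjoint M' F := by
      rw [Finset.disjoint_left]
      intro e he heF
      obtain ⟨h, hh⟩ := sym2_exists_mem e
      exact Finset.mem_compl.1 (hM'.2.1 e he h hh) ((mem_cov F h).2 ⟨e, heF, hh⟩)
    show (F ∪ M') \ F = M'
    rw [Finset.union_sdiff_left]
    exact Finset.sdiff_eq_self_of_disjoint hd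
  · intro M hM
    rw [Finset.mem_filter] at hM
    rw [mul_comm]
    exact (Finset.prod_sdiff hM.2).symm

end Pool.Agent.Helper84.T4
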